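import Pool.Agent.Helper393.WB.F

open MeasureTheory TopologicalSpace

namespace Pool.Agent.Results.MP_2cbf68_an.NormMeasurable

/-- The σ-algebra on the Banach space `E` generated by all continuous linear functionals. -/
@[instance_reducible]
def functionalSigma (E : Type) [NormedAddCommGroup E] [NormedSpace ℝ E] : MeasurableSpace E :=
  ⨆ φ : StrongDual ℝ E, MeasurableSpace.comap φ (borel ℝ)

/-- `Ba(E, w)`: the smallest σ-algebra on the Banach space `E` making every weakly continuous real
function on `E` measurable. -/
@[instance_reducible]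
def weakBaire (E : Type) [NormedAddCommGroup E] [NormedSpace ℝ E] : MeasurableSpace E :=
  ⨆ g : {g : E → ℝ // Continuous fun x : WeakSpace ℝ E => g ((toWeakSpace ℝ E).symm x)},
    MeasurableSpace.comap g.1 (borel ℝ)

/-- The closed unit ball of the dual space of `E`, a subset of the dual with the weak* topology. -/
def dualBall (E : Type) [NormedAddCommGroup E] [NormedSpace ℝ E] : Set (WeakDual ℝ E) :=
  {φ | ‖WeakDual.toStrongDual φ‖ ≤ 1}

theorem functionalSigma_le (E : Type) [NormedAddCommGroup E] [NormedSpace ℝ E] :
    functionalSigma E ≤ weakBaire E := by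
  refine iSup_le fun φ => ?_
  exact le_iSup (fun g : {g : E → ℝ // Continuous fun x : WeakSpace ℝ E =>
    g ((toWeakSpace ℝ E).symm x)} => MeasurableSpace.comap g.1 (borel ℝ))
    ⟨φ, WeakBilin.eval_continuous (topDualPairing ℝ E).flip φ⟩

/-- There is a compact Hausdorff space `K` such that the supremum norm of `C(K)` is measurable for
the Baire σ-algebra of the weak topology (even for the σ-algebra generated by the functionals),
while the closed unit ball of the dual of `C(K)` is not weak* separable. -/
theorem result :
    ∃ (K : Type) (_ : TopologicalSpace K) (_ : CompactSpace K) (_ : T2Space K),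
      Measurable[weakBaire C(K, ℝ), borel ℝ] (fun f : C(K, ℝ) => ‖f‖) ∧
      Measurable[functionalSigma C(K, ℝ), borel ℝ] (fun f : C(K, ℝ) => ‖f‖) ∧
      ¬ SeparableSpace (dualBall C(K, ℝ)) := by
  refine ⟨Pool.Agent.Helper393.WB.K, inferInstance, inferInstance, inferInstance, ?_, ?_, ?_⟩
  · exact (Pool.Agent.Helper393.WB.norm_measurable_cyl).mono (functionalSigma_le _) le_rfl
  · exact Pool.Agent.Helper393.WB.norm_measurable_cyl
  · exact Pool.Agent.Helper393.WB.not_separable

end Pool.Agent.Results.MP_2cbf68_an.NormMeasurable
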